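import Pool.Agent.W982.HoleFinal

/-!
# MP_08b96b_lc: two vertices on a common hole in a perfect graph, NP-hardness
-/

namespace Pool.Agent.Results.MP_08b96b_lc.CommonHoleNPHard

open Pool.Agent.NPC Pool.Agent.H673R2 Pool.Agent.W982.Hole

/-- Given a perfect graph and two vertices of it, it is `NP`-hard to decide whether the two vertices
lie on a common hole, even if the graph is bipartite; in particular, if `P ≠ NP`, no
polynomial-time algorithm decides this for all perfect graphs. -/
theorem result :
    NPHardOn (fun I => Valid I ∧ IsPerfect (graphOf I) ∧ (graphOf I).IsBipartite) OnCommonHole ∧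
    (PneNP → ¬ ∃ A : List Bool → List Bool, PolyTime A ∧
      ∀ I : Inst, Valid I → IsPerfect (graphOf I) → (A (bits I) = [true] ↔ OnCommonHole I)) := by
  refine ⟨main, ?_⟩
  rintro ⟨L, hL, hL'⟩ ⟨A, hA, hd⟩
  apply hL'
  obtain ⟨g, hg, hgp, hgL⟩ := main L hL
  exact ⟨fun x => A (bits (g x)),
    H642R2.TMSim.polyTime_comp (g := A) (f := fun x => bits (g x)) hA hg,
    fun x => (hgL x).trans (hd _ (hgp x).1 (hgp x).2.1).symm⟩

end Pool.Agent.Results.MP_08b96b_lc.CommonHoleNPHard
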